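import Pool.Agent.Helper99.SC.Logic

/-!
# A word determines the graph
-/

set_option autoImplicit false

namespace Pool.Agent.Helper88.SC

open Pool.Agent.Helper99.SC

theorem replicate_inj {n n' : ℕ} {r r' : List Bool}
    (h : List.replicate n true ++ false :: r = List.replicate n' true ++ false :: r') :
    n = n' ∧ r = r' := by
  induction n generalizing n' with
  | zero =>
    cases n' with
    | zero => exact ⟨rfl, by simpa using h⟩
    | succ n' => simp [List.replicate_succ] at h
  | succ n ih =>
    cases n' with
    | zero => simp [List.replicate_succ] at h
    | succ n' =>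
      simp only [List.replicate_succ, List.cons_append, List.cons.injEq, true_and] at h
      obtain ⟨h1, h2⟩ := ih h
      exact ⟨by omega, h2⟩

theorem flatMap_inj {α β : Type} {F F' : α → List β} (hlen : ∀ i, (F i).length = (F' i).length)
    (l : List α) (h : l.flatMap F = l.flatMap F') : ∀ i ∈ l, F i = F' i := by
  induction l with
  | nil => simp
  | cons a l ih =>
    rw [List.flatMap_cons, List.flatMap_cons] at h
    obtain ⟨h1, h2⟩ := List.append_inj h (hlen a)
    intro i hi
    rcases List.mem_cons.1 hi with rfl | hi
    · exact h1
    · exact ih h2 i hi

/-- MODULE SL6. -/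
theorem sl_inj : M_inj := by
  classical
  intro n n' G G' h
  unfold word at h
  obtain ⟨rfl, h2⟩ := replicate_inj h
  have h3 := flatMap_inj (by intro i; simp) _ h2
  have h4 : G = G' := by
    ext i j
    have := List.map_inj_left.1 (h3 i (List.mem_finRange i)) j (List.mem_finRange j)
    simpa using this
  rw [h4]

end Pool.Agent.Helper88.SC
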