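import Mathlib

/-!
# First return permutations
-/

set_option autoImplicit false

namespace Pool.Agent.Helper88.SC

open Equiv

section Ret

variable {α : Type} [Finite α] (σ : Perm α) (S : α → Prop)

theorem exists_ret (x : {x // S x}) : ∃ k, S ((σ ^ (k + 1)) x.1) := by
  refine ⟨orderOf σ - 1, ?_⟩
  have h : 0 < orderOf σ := orderOf_pos σ
  rw [Nat.sub_add_cancel h, pow_orderOf_eq_one]
  exact x.2

open Classical in
/-- one less than the time of the first return -/
noncomputable def retN (x : {x // S x}) : ℕ := Nat.find (exists_ret σ S x)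

open Classical in
theorem retN_spec (x : {x // S x}) : S ((σ ^ (retN σ S x + 1)) x.1) :=
  Nat.find_spec (exists_ret σ S x)

open Classical in
theorem retN_min (x : {x // S x}) {k : ℕ} (hk : k < retN σ S x) : ¬ S ((σ ^ (k + 1)) x.1) :=
  Nat.find_min (exists_ret σ S x) hk

/-- the first return map -/
noncomputable def retFun (x : {x // S x}) : {x // S x} :=
  ⟨(σ ^ (retN σ S x + 1)) x.1, retN_spec σ S x⟩

theorem retN_eq {x : {x // S x}} {k : ℕ} (h1 : S ((σ ^ (k + 1)) x.1))
    (h2 : ∀ j < k, ¬ S ((σ ^ (j + 1)) x.1)) : retN σ S x = k := by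
  rcases lt_trichotomy (retN σ S x) k with h | h | h
  · exact absurd (retN_spec σ S x) (h2 _ h)
  · exact h
  · exact absurd h1 (retN_min σ S x h)

theorem retFun_injective : Function.Injective (retFun σ S) := by
  intro x y hxy
  wlog hle : retN σ S x ≤ retN σ S y generalizing x y
  · exact (this hxy.symm (by omega)).symm
  obtain ⟨m, hm⟩ := Nat.exists_eq_add_of_le hle
  have h : (σ ^ (retN σ S x + 1)) x.1 = (σ ^ (retN σ S y + 1)) y.1 := congrArg Subtype.val hxy
  rw [hm, show retN σ S x + m + 1 = (retN σ S x + 1) + m by omega,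
    pow_add σ (retN σ S x + 1) m, Perm.mul_apply] at h
  have h' := (σ ^ (retN σ S x + 1)).injective h
  cases m with
  | zero => exact Subtype.ext (by simpa using h')
  | succ m =>
    exfalso
    refine retN_min σ S y (k := m) (by omega) ?_
    rw [← h']
    exact x.2

/-- the first return permutation -/
noncomputable def ret : Perm {x // S x} :=
  Equiv.ofBijective (retFun σ S) (Finite.injective_iff_bijective.1 (retFun_injective σ S))

theorem ret_coe (x : {x // S x}) : (ret σ S x).1 = (σ ^ (retN σ S x + 1)) x.1 := rfl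

theorem ret_eq {x : {x // S x}} {k : ℕ} (h1 : S ((σ ^ (k + 1)) x.1))
    (h2 : ∀ j < k, ¬ S ((σ ^ (j + 1)) x.1)) : (ret σ S x).1 = (σ ^ (k + 1)) x.1 := by
  rw [ret_coe, retN_eq σ S h1 h2]

theorem ret_sameCycle (x y : {x // S x}) :
    (ret σ S).SameCycle x y ↔ σ.SameCycle x.1 y.1 := by
  constructor
  · intro h
    obtain ⟨n, hn⟩ := h.exists_nat_pow_eq
    subst hn
    clear h
    induction n with
    | zero => exact Perm.SameCycle.refl _ _
    | succ n ih =>
      refine ih.trans ?_
      rw [pow_succ', Perm.mul_apply, ret_coe]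
      exact ⟨(retN σ S ((ret σ S ^ n) x) + 1 : ℕ), by rw [zpow_natCast]⟩
  · intro h
    obtain ⟨n, hn⟩ := h.exists_nat_pow_eq
    clear h
    induction n using Nat.strong_induction_on generalizing x with
    | _ n ih =>
      cases n with
      | zero =>
        have : x = y := Subtype.ext (by simpa using hn)
        rw [this]
      | succ n =>
        have hS : S ((σ ^ (n + 1)) x.1) := by rw [hn]; exact y.2
        have hle : retN σ S x ≤ n := by
          by_contra hlt
          exact retN_min σ S x (by omega) hS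
        obtain ⟨m, hm⟩ := Nat.exists_eq_add_of_le hle
        have h1 : (σ ^ m) (ret σ S x).1 = y.1 := by
          rw [ret_coe, ← Perm.mul_apply, ← pow_add, ← hn, hm]
          congr 2
          omega
        have h2 := ih m (by omega) (ret σ S x) h1
        exact (Perm.sameCycle_apply_left.1 h2)

/-- Functions pulled back along the last visit of `S`. -/
theorem exists_ext {σ : Perm α} {S : α → Prop} (z g' : α → ZMod 2)
    (hz : ∀ d, ¬ S d → z d = 0)
    (hg : ∀ x : {x // S x}, g' (ret σ S x).1 = g' x.1 + z (ret σ S x).1) :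
    ∃ g : α → ZMod 2, (∀ d, S d → g d = g' d) ∧ ∀ d, g (σ d) = g d + z (σ d) := by
  classical
  -- last visit
  let P : α → ℕ → Prop := fun d k => S ((σ⁻¹ ^ k) d)
  let g : α → ZMod 2 := fun d => if h : ∃ k, P d k then g' ((σ⁻¹ ^ Nat.find h) d) else 0
  have key : ∀ d k, P d k → (∀ j < k, ¬ P d j) → g d = g' ((σ⁻¹ ^ k) d) := by
    intro d k h1 h2
    have hex : ∃ k, P d k := ⟨k, h1⟩
    have hf : Nat.find hex = k := (Nat.find_eq_iff hex).2 ⟨h1, h2⟩
    simp only [g, dif_pos hex, hf]
  have P0 : ∀ d, P d 0 ↔ S d := fun d => Iff.rfl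
  refine ⟨g, fun d hd => key d 0 ((P0 d).2 hd) (by simp), ?_⟩
  intro d
  have hstep : ∀ k, (σ⁻¹ ^ (k + 1)) (σ d) = (σ⁻¹ ^ k) d := by
    intro k
    rw [pow_succ, Perm.mul_apply]
    congr 1
    exact σ.symm_apply_apply d
  by_cases hex : ∃ k, P d k
  · have h1 := Nat.find_spec hex
    have h2 : ∀ j < Nat.find hex, ¬ P d j := fun j hj => Nat.find_min hex hj
    generalize Nat.find hex = k at h1 h2
    have e1 : g d = g' ((σ⁻¹ ^ k) d) := key d k h1 h2
    by_cases hs : S (σ d)
    · have e2 : g (σ d) = g' (σ d) := key (σ d) 0 ((P0 _).2 hs) (by simp)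
      let x : {x // S x} := ⟨(σ⁻¹ ^ k) d, h1⟩
      have hpow : ∀ j, j ≤ k → (σ ^ j) x.1 = (σ⁻¹ ^ (k - j)) d := by
        intro j hj
        show (σ ^ j) ((σ⁻¹ ^ k) d) = _
        rw [inv_pow, inv_pow, ← Perm.mul_apply]
        congr 1
        rw [← zpow_natCast, ← zpow_natCast, ← zpow_natCast, ← zpow_neg, ← zpow_neg, ← zpow_add,
          Nat.cast_sub hj]
        congr 1
        ring
      have hk1 : (σ ^ (k + 1)) x.1 = σ d := by
        rw [pow_succ', Perm.mul_apply, hpow k le_rfl]
        simp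
      have hret : (ret σ S x).1 = σ d := by
        rw [ret_eq σ S (k := k) (by rw [hk1]; exact hs) ?_, hk1]
        intro j hj
        rw [hpow (j + 1) (by omega)]
        exact h2 _ (by omega)
      have := hg x
      rw [hret] at this
      rw [e1, e2, this]
    · have e2 : g (σ d) = g' ((σ⁻¹ ^ (k + 1)) (σ d)) := by
        refine key (σ d) (k + 1) ?_ ?_
        · show S _
          rw [hstep]
          exact h1
        · intro j hj
          cases j with
          | zero => exact fun h => hs ((P0 _).1 h)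
          | succ j =>
            show ¬ S _
            rw [hstep]
            exact h2 j (by omega)
      rw [e1, e2, hstep, hz _ hs, add_zero]
  · have hno : ¬ S (σ d) := by
      intro hs
      -- `d` is a negative power of `σ d`
      apply hex
      refine ⟨orderOf σ - 1, ?_⟩
      have h : 0 < orderOf σ := orderOf_pos σ
      show S _
      rw [← hstep, Nat.sub_add_cancel h, inv_pow, pow_orderOf_eq_one]
      simpa using hs
    have hex' : ¬ ∃ k, P (σ d) k := by
      rintro ⟨k, hk⟩
      cases k with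
      | zero => exact hno ((P0 _).1 hk)
      | succ k =>
        apply hex
        refine ⟨k, ?_⟩
        have hk' : S ((σ⁻¹ ^ (k + 1)) (σ d)) := hk
        rw [hstep] at hk'
        exact hk'
    simp only [g, dif_neg hex, dif_neg hex', hz _ hno, add_zero]

/-- Restriction of a potential to `S`. -/
theorem ret_restrict {σ : Perm α} {S : α → Prop} (z χ : α → ZMod 2)
    (hz : ∀ d, ¬ S d → z d = 0) (hχ : ∀ d, χ (σ d) = χ d + z (σ d)) (x : {x // S x}) :
    χ (ret σ S x).1 = χ x.1 + z (ret σ S x).1 := by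
  have h : ∀ k ≤ retN σ S x, χ ((σ ^ k) x.1) = χ x.1 := by
    intro k
    induction k with
    | zero => simp
    | succ k ih =>
      intro hk
      rw [pow_succ', Perm.mul_apply, hχ, ih (by omega), ← Perm.mul_apply, ← pow_succ',
        hz _ (retN_min σ S x (by omega)), add_zero]
  rw [ret_coe, pow_succ', Perm.mul_apply, hχ, h _ le_rfl]

end Ret

/-! ### Return maps of reversible permutations -/

section Rev

variable {α : Type} {σ τ : Perm α} {S : α → Prop}

theorem conj_pow (hτ : ∀ x, τ (τ x) = x) (hc : ∀ x, τ (σ (τ x)) = σ⁻¹ x) (k : ℕ) (x : α) :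
    τ ((σ ^ k) x) = (σ⁻¹ ^ k) (τ x) := by
  induction k generalizing x with
  | zero => simp
  | succ k ih =>
    rw [pow_succ, Perm.mul_apply, ih, pow_succ, Perm.mul_apply]
    congr 1
    rw [← hc (τ x), hτ]

theorem inv_pow_apply_pow {j k : ℕ} (hj : j ≤ k) (x : α) :
    (σ⁻¹ ^ j) ((σ ^ k) x) = (σ ^ (k - j)) x := by
  rw [inv_pow, ← Perm.mul_apply]
  congr 1
  rw [← zpow_natCast, ← zpow_natCast, ← zpow_natCast, ← zpow_neg, ← zpow_add, Nat.cast_sub hj]
  congr 1
  ring

theorem conj_ret [Finite α] (hτ : ∀ x, τ (τ x) = x) (hc : ∀ x, τ (σ (τ x)) = σ⁻¹ x)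
    (hS : ∀ x, S x → τ x = x) (x : {x // S x}) {j : ℕ} (hj : j ≤ retN σ S x + 1) :
    (σ ^ j) (ret σ S x).1 = τ ((σ ^ (retN σ S x + 1 - j)) x.1) := by
  have h1 : τ ((σ ^ j) (ret σ S x).1) = (σ ^ (retN σ S x + 1 - j)) x.1 := by
    rw [conj_pow hτ hc, hS _ (ret σ S x).2, ret_coe, inv_pow_apply_pow hj]
  rw [← h1, hτ]

theorem S_conj (hτ : ∀ x, τ (τ x) = x) (hS : ∀ x, S x → τ x = x) (x : α) : S (τ x) ↔ S x := by
  constructor
  · intro h
    have := hS _ h
    rw [hτ] at this
    rw [this]
    exact h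
  · intro h
    rw [hS x h]
    exact h

theorem ret_ret [Finite α] (hτ : ∀ x, τ (τ x) = x) (hc : ∀ x, τ (σ (τ x)) = σ⁻¹ x)
    (hS : ∀ x, S x → τ x = x) (x : {x // S x}) : ret σ S (ret σ S x) = x := by
  apply Subtype.ext
  have h0 : (σ ^ (retN σ S x + 1)) (ret σ S x).1 = x.1 := by
    rw [conj_ret hτ hc hS x le_rfl, Nat.sub_self]
    simpa using hS _ x.2
  rw [ret_eq σ S (x := ret σ S x) (k := retN σ S x) (by rw [h0]; exact x.2) ?_, h0]
  intro j hj
  rw [conj_ret hτ hc hS x (by omega), S_conj hτ hS,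
    show retN σ S x + 1 - (j + 1) = (retN σ S x - j - 1) + 1 by omega]
  exact retN_min σ S x (by omega)

theorem ret_ne [Finite α] (hτ : ∀ x, τ (τ x) = x) (hc : ∀ x, τ (σ (τ x)) = σ⁻¹ x)
    (hS : ∀ x, S x → τ x = x) (h1 : ∀ x, ¬ S x → τ x ≠ x) (h2 : ∀ x, τ (σ x) ≠ x)
    (x : {x // S x}) : ret σ S x ≠ x := by
  intro he
  have key : ∀ j, j ≤ retN σ S x + 1 →
      (σ ^ j) x.1 = τ ((σ ^ (retN σ S x + 1 - j)) x.1) := by
    intro j hj
    have := conj_ret hτ hc hS x hj
    rwa [he] at this
  rcases Nat.even_or_odd' (retN σ S x + 1) with ⟨m, hm | hm⟩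
  · -- the middle point is a point of `S`
    have h3 := key m (by omega)
    rw [show retN σ S x + 1 - m = m by omega] at h3
    have hm0 : 0 < m := by omega
    refine h1 ((σ ^ m) x.1) ?_ h3.symm
    obtain ⟨m', rfl⟩ : ∃ m', m = m' + 1 := ⟨m - 1, by omega⟩
    exact retN_min σ S x (by omega)
  · have h3 := key m (by omega)
    rw [show retN σ S x + 1 - m = m + 1 by omega, pow_succ', Perm.mul_apply] at h3
    exact h2 _ h3.symm

end Rev

end Pool.Agent.Helper88.SC
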