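import Pool.Agent.Helper99.SC.Topo
import Pool.Agent.Helper88.SC.Ret

/-!
# Removing unused darts
-/

set_option autoImplicit false

namespace Pool.Agent.Helper88.SC

open Equiv Pool.Agent.Helper99.SC

/-- A drawing in which points of degree two are allowed. -/
structure Mid (V : Type) where
  D : Type
  finD : Finite D
  P : Type
  base : D → V ⊕ P
  rev : Perm D
  rot : Perm D
  rev_rev : ∀ d, rev (rev d) = d
  rev_ne : ∀ d, rev d ≠ d
  sameCycle : ∀ d e, rot.SameCycle d e ↔ base d = base e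
  flux : Flux rot rev
  stem : P → D
  base_stem : ∀ p, base (stem p) = Sum.inr p
  degree : ∀ p, Nat.card {d // base d = Sum.inr p} = 2 ∨ Nat.card {d // base d = Sum.inr p} = 3

namespace Mid

variable {V : Type} (X : Mid V)

def Smooth (d e : X.D) : Prop :=
  ∃ p, X.base (X.rev d) = Sum.inr p ∧ X.base e = Sum.inr p ∧ X.rev d ≠ e ∧
    (X.rev d = X.stem p ∨ e = X.stem p)

def Joins (u v : V) : Prop :=
  ∃ d e, X.base d = Sum.inl u ∧ Relation.ReflTransGen X.Smooth d e ∧
    X.base (X.rev e) = Sum.inl v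

end Mid

theorem exists_mid {V : Type} (X : Pre V) : ∃ Y : Mid V, ∀ u v, Y.Joins u v ↔ X.Joins u v := by
  classical
  have hfin : Finite X.D := X.finD
  let ι : V ⊕ {p // X.U (X.stem p)} → V ⊕ X.P := Sum.map id Subtype.val
  have hι : Function.Injective ι := Sum.map_injective.2 ⟨Function.injective_id, Subtype.val_injective⟩
  have hb : ∀ d : {d // X.U d}, ∃ b, ι b = X.base d.1 := by
    intro d
    cases h : X.base d.1 with
    | inl v => exact ⟨Sum.inl v, rfl⟩
    | inr p => exact ⟨Sum.inr ⟨p, X.stem_U d.1 p h d.2⟩, rfl⟩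
  choose base hbase using hb
  have hrU : ∀ d, X.U (X.rev d) ↔ X.U d :=
    fun d => ⟨fun h => by have := X.rev_U _ h; rwa [X.rev_rev] at this, X.rev_U d⟩
  have hbl : ∀ d v, base d = Sum.inl v ↔ X.base d.1 = Sum.inl v := by
    intro d v
    rw [← hbase d]
    exact ⟨fun h => by rw [h]; rfl, fun h => hι (by rw [h]; rfl)⟩
  have hbr : ∀ d (p : {p // X.U (X.stem p)}), base d = Sum.inr p ↔ X.base d.1 = Sum.inr p.1 := by
    intro d p
    rw [← hbase d]
    exact ⟨fun h => by rw [h]; rfl, fun h => hι (by rw [h]; rfl)⟩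
  let revY : Perm {d // X.U d} := X.rev.subtypePerm hrU
  have hrev : ∀ d, (revY d).1 = X.rev d.1 := fun d => rfl
  let Y : Mid V :=
    { D := {d // X.U d}
      finD := inferInstance
      P := {p // X.U (X.stem p)}
      base := base
      rev := revY
      rot := ret X.rot X.U
      rev_rev := fun d => Subtype.ext (X.rev_rev d.1)
      rev_ne := fun d h => X.rev_ne d.1 d.2 (congrArg Subtype.val h)
      sameCycle := by
        intro d e
        rw [ret_sameCycle, X.sameCycle, ← hbase, ← hbase]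
        exact hι.eq_iff
      flux := by
        intro z₁ hz₁ ⟨g₁, hg₁⟩
        let z : X.D → ZMod 2 := fun d => if h : X.U d then z₁ ⟨d, h⟩ else 0
        let g' : X.D → ZMod 2 := fun d => if h : X.U d then g₁ ⟨d, h⟩ else 0
        have hzv : ∀ x : {d // X.U d}, z x.1 = z₁ x := fun x => by simp only [z, dif_pos x.2]
        have hgv : ∀ x : {d // X.U d}, g' x.1 = g₁ x := fun x => by simp only [g', dif_pos x.2]
        have hz0 : ∀ d, ¬ X.U d → z d = 0 := fun d hd => by simp only [z, dif_neg hd]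
        obtain ⟨g, -, hg⟩ := exists_ext (σ := X.rot) (S := X.U) z g' hz0 (by
          intro x
          rw [hgv, hgv, hzv]
          exact hg₁ x)
        obtain ⟨χ, h1, h2⟩ := X.flux z hz0 (by
          intro d
          by_cases hd : X.U d
          · have := hz₁ ⟨d, hd⟩
            rw [← hzv, ← hzv] at this
            exact this
          · rw [hz0 d hd, hz0 _ (fun h => hd ((hrU d).1 h))]) ⟨g, hg⟩
        refine ⟨fun x => χ x.1, fun x => ?_, fun x => ?_⟩
        · show χ (X.rev x.1) = χ x.1 + z₁ x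
          rw [h1 x.1 x.2, hzv]
        · show χ (ret X.rot X.U x).1 = χ x.1 + z₁ (ret X.rot X.U x)
          rw [ret_restrict z χ hz0 h2 x, hzv]
      stem := fun p => ⟨X.stem p.1, p.2⟩
      base_stem := fun p => (hbr _ _).2 (X.base_stem p.1)
      degree := by
        intro p
        have e : {d : {d // X.U d} // base d = Sum.inr p} ≃
            {d // X.base d = Sum.inr p.1 ∧ X.U d} :=
          { toFun := fun d => ⟨d.1.1, (hbr _ _).1 d.2, d.1.2⟩
            invFun := fun d => ⟨⟨d.1, d.2.2⟩, (hbr _ _).2 d.2.1⟩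
            left_inv := fun d => rfl
            right_inv := fun d => rfl }
        rw [Nat.card_congr e]
        rcases X.degree p.1 with h | h | h
        · exfalso
          have : Finite {d // X.base d = Sum.inr p.1 ∧ X.U d} := inferInstance
          have hne : Nonempty {d // X.base d = Sum.inr p.1 ∧ X.U d} :=
            ⟨⟨X.stem p.1, X.base_stem p.1, p.2⟩⟩
          exact absurd h (Nat.card_pos).ne'
        · exact Or.inl h
        · exact Or.inr h }
  have hsm : ∀ d e : {d // X.U d}, Y.Smooth d e ↔ X.Smooth d.1 e.1 := by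
    intro d e
    constructor
    · rintro ⟨p, h1, h2, h3, h4⟩
      refine ⟨d.2, e.2, p.1, (hbr _ _).1 h1, (hbr _ _).1 h2, fun h => h3 (Subtype.ext h), ?_⟩
      rcases h4 with h4 | h4
      · exact Or.inl (congrArg Subtype.val h4)
      · exact Or.inr (congrArg Subtype.val h4)
    · rintro ⟨-, -, p, h1, h2, h3, h4⟩
      have hp : X.U (X.stem p) := X.stem_U e.1 p h2 e.2
      refine ⟨⟨p, hp⟩, (hbr _ _).2 h1, (hbr _ _).2 h2, fun h => h3 (congrArg Subtype.val h), ?_⟩
      rcases h4 with h4 | h4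
      · exact Or.inl (Subtype.ext h4)
      · exact Or.inr (Subtype.ext h4)
  refine ⟨Y, fun u v => ⟨?_, ?_⟩⟩
  · rintro ⟨d, e, h1, h2, h3⟩
    exact ⟨d.1, e.1, d.2, (hbl _ _).1 h1, h2.lift Subtype.val fun a b h => (hsm a b).1 h,
      (hbl _ _).1 h3⟩
  · rintro ⟨d, e, hU, h1, h2, h3⟩
    have key : ∀ e, Relation.ReflTransGen X.Smooth d e →
        ∃ he : X.U e, Relation.ReflTransGen Y.Smooth ⟨d, hU⟩ ⟨e, he⟩ := by
      intro e he
      induction he with
      | refl => exact ⟨hU, Relation.ReflTransGen.refl⟩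
      | tail _ hbc ih =>
        obtain ⟨hb, ih⟩ := ih
        exact ⟨hbc.2.1, ih.tail ((hsm ⟨_, hb⟩ ⟨_, hbc.2.1⟩).2 hbc)⟩
    obtain ⟨he, hp⟩ := key e h2
    exact ⟨⟨d, hU⟩, ⟨e, he⟩, (hbl _ _).2 h1, hp, (hbl _ _).2 h3⟩

end Pool.Agent.Helper88.SC
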