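import Pool.Agent.Helper88.SC.Mid

/-!
# Removing points of degree two
-/

set_option autoImplicit false

namespace Pool.Agent.Helper88.SC

open Equiv Pool.Agent.Helper99.SC

theorem const_of_sameCycle {α β : Type} [Finite α] {σ : Perm α} {f : α → β}
    (h : ∀ x, f (σ x) = f x) {x y : α} (hxy : σ.SameCycle x y) : f x = f y := by
  obtain ⟨n, rfl⟩ := hxy.exists_nat_pow_eq
  clear hxy
  induction n with
  | zero => rfl
  | succ n ih => rw [pow_succ', Perm.mul_apply, h, ← ih]

theorem two_of_card {α : Type} (h : Nat.card α = 2) (x y z : α) : x = y ∨ y = z ∨ x = z := by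
  obtain ⟨a, b, -, hab⟩ := Nat.card_eq_two_iff.1 h
  have hm : ∀ w : α, w = a ∨ w = b := by
    intro w
    have : w ∈ ({a, b} : Set α) := by rw [hab]; trivial
    simpa using this
  rcases hm x with hx | hx <;> rcases hm y with hy | hy <;> rcases hm z with hz | hz <;>
    subst hx <;> simp_all

section Two

variable {V : Type} (X : Mid V)

/-- the points which are kept -/
def Mid.S (d : X.D) : Prop :=
  ∀ p, X.base d = Sum.inr p → Nat.card {d // X.base d = Sum.inr p} = 3

theorem Mid.base_rot (d : X.D) : X.base (X.rot d) = X.base d :=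
  ((X.sameCycle _ _).1 (Perm.sameCycle_apply_left.2 (Perm.SameCycle.refl _ _)))

theorem Mid.S_congr {d e : X.D} (h : X.base d = X.base e) : X.S d ↔ X.S e := by
  unfold Mid.S
  rw [h]

theorem Mid.S_rot (d : X.D) : X.S (X.rot d) ↔ X.S d := X.S_congr (X.base_rot d)

theorem Mid.not_S {d : X.D} (h : ¬ X.S d) :
    ∃ p, X.base d = Sum.inr p ∧ Nat.card {d // X.base d = Sum.inr p} = 2 := by
  unfold Mid.S at h
  push Not at h
  obtain ⟨p, h1, h2⟩ := h
  exact ⟨p, h1, (X.degree p).resolve_right h2⟩

theorem Mid.three {d x y z : X.D} (h : ¬ X.S d) (hx : X.base x = X.base d)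
    (hy : X.base y = X.base d) (hz : X.base z = X.base d) : x = y ∨ y = z ∨ x = z := by
  obtain ⟨p, h1, h2⟩ := X.not_S h
  rcases two_of_card h2 ⟨x, hx.trans h1⟩ ⟨y, hy.trans h1⟩ ⟨z, hz.trans h1⟩ with h | h | h
  · exact Or.inl (congrArg Subtype.val h)
  · exact Or.inr (Or.inl (congrArg Subtype.val h))
  · exact Or.inr (Or.inr (congrArg Subtype.val h))

theorem Mid.rot_ne {d : X.D} (h : ¬ X.S d) : X.rot d ≠ d := by
  have := X.finD
  intro he
  obtain ⟨p, h1, h2⟩ := X.not_S h
  obtain ⟨a, b, hab, -⟩ := Nat.card_eq_two_iff.1 h2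
  have hc : ∀ e : {d // X.base d = Sum.inr p}, e.1 = d := by
    intro e
    have hs : X.rot.SameCycle d e.1 := (X.sameCycle _ _).2 (h1.trans e.2.symm)
    obtain ⟨n, hn⟩ := hs.exists_nat_pow_eq
    rw [← hn]
    clear hn hs
    induction n with
    | zero => rfl
    | succ n ih => rw [pow_succ', Perm.mul_apply, ih, he]
  exact hab (Subtype.ext ((hc a).trans (hc b).symm))

theorem Mid.rot_rot {d : X.D} (h : ¬ X.S d) : X.rot (X.rot d) = d := by
  rcases X.three h (X.base_rot d) rfl ((X.base_rot (X.rot d)).trans (X.base_rot d)) with h' | h' | h'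
  · exact absurd h' (X.rot_ne h)
  · exact h'.symm
  · exact absurd (X.rot.injective h'.symm) (X.rot_ne h)

theorem Mid.eq_rot {d e : X.D} (h : ¬ X.S d) (h1 : X.base e = X.base d) (h2 : e ≠ d) :
    e = X.rot d := by
  rcases X.three h h1 rfl (X.base_rot d) with h' | h' | h'
  · exact absurd h' h2
  · exact absurd h'.symm (X.rot_ne h)
  · exact h'

open Classical in
theorem Mid.tauFun_tauFun (d : X.D) :
    (fun d => if X.S d then d else X.rot d) ((fun d => if X.S d then d else X.rot d) d) = d := by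
  by_cases h : X.S d
  · simp [h]
  · simp [h, X.S_rot, X.rot_rot h]

open Classical in
/-- exchange the two darts at points of degree two -/
noncomputable def Mid.tau : Perm X.D where
  toFun := fun d => if X.S d then d else X.rot d
  invFun := fun d => if X.S d then d else X.rot d
  left_inv := X.tauFun_tauFun
  right_inv := X.tauFun_tauFun

theorem Mid.tau_S {d : X.D} (h : X.S d) : X.tau d = d := if_pos h

theorem Mid.tau_not_S {d : X.D} (h : ¬ X.S d) : X.tau d = X.rot d := if_neg h

theorem Mid.tau_tau (d : X.D) : X.tau (X.tau d) = d := X.tauFun_tauFun d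

theorem Mid.S_tau (d : X.D) : X.S (X.tau d) ↔ X.S d := S_conj X.tau_tau (fun _ => X.tau_S) d

theorem Mid.base_tau (d : X.D) : X.base (X.tau d) = X.base d := by
  by_cases h : X.S d
  · rw [X.tau_S h]
  · rw [X.tau_not_S h, X.base_rot]

/-- go along an arc and pass the point of degree two at its end, if any -/
noncomputable def Mid.beta : Perm X.D := X.tau * X.rev

theorem Mid.beta_apply (d : X.D) : X.beta d = X.tau (X.rev d) := rfl

theorem Mid.conj (x : X.D) : X.tau (X.beta (X.tau x)) = X.beta⁻¹ x := by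
  symm
  have h : X.tau (X.beta (X.tau x)) = X.rev (X.tau x) := by rw [X.beta_apply, X.tau_tau]
  rw [h, Perm.inv_eq_iff_eq, X.beta_apply, X.rev_rev, X.tau_tau]

theorem Mid.rev_eq (x : X.D) : X.rev x = X.tau (X.beta x) := by
  rw [X.beta_apply, X.tau_tau]

theorem Mid.sc_tau {x y : X.D} (hx : X.S x) (h : X.beta.SameCycle x y) :
    X.beta.SameCycle x (X.tau y) := by
  have := X.finD
  obtain ⟨n, rfl⟩ := h.exists_nat_pow_eq
  rw [conj_pow X.tau_tau X.conj, X.tau_S hx]
  exact ⟨-(n : ℤ), by rw [zpow_neg, zpow_natCast, inv_pow]⟩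

/-- the new reversal -/
noncomputable def Mid.revT : Perm {d // X.S d} :=
  haveI := X.finD
  ret X.beta X.S

/-- the new rotation -/
noncomputable def Mid.rotT : Perm {d // X.S d} := X.rot.subtypePerm X.S_rot

theorem Mid.revT_revT (x : {d // X.S d}) : X.revT (X.revT x) = x := by
  have := X.finD
  exact ret_ret X.tau_tau X.conj (fun _ => X.tau_S) x

theorem Mid.revT_ne (x : {d // X.S d}) : X.revT x ≠ x := by
  have := X.finD
  refine ret_ne X.tau_tau X.conj (fun _ => X.tau_S) ?_ ?_ x
  · intro y hy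
    rw [X.tau_not_S hy]
    exact X.rot_ne hy
  · intro y
    rw [← X.rev_eq]
    exact X.rev_ne y

/-- The new reversal is reached through points of degree two. -/
theorem Mid.exists_path (x : {d // X.S d}) : ∃ k, (X.revT x).1 = X.rev ((X.beta ^ k) x.1) ∧
    (X.revT x).1 = (X.beta ^ (k + 1)) x.1 ∧
    ∀ j < k, ¬ X.S (X.rev ((X.beta ^ j) x.1)) := by
  have := X.finD
  refine ⟨retN X.beta X.S x, ?_, rfl, ?_⟩
  · have h := (X.revT x).2
    have h1 : (X.revT x).1 = X.tau (X.rev ((X.beta ^ retN X.beta X.S x) x.1)) := by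
      show (X.beta ^ (retN X.beta X.S x + 1)) x.1 = _
      rw [pow_succ', Perm.mul_apply, X.beta_apply]
    rw [h1] at h ⊢
    exact X.tau_S ((X.S_tau _).1 h)
  · intro j hj
    have := retN_min X.beta X.S x hj
    rwa [pow_succ', Perm.mul_apply, X.beta_apply, X.S_tau] at this

theorem Mid.revT_eq (x : {d // X.S d}) {k : ℕ} (h1 : X.S (X.rev ((X.beta ^ k) x.1)))
    (h2 : ∀ j < k, ¬ X.S (X.rev ((X.beta ^ j) x.1))) :
    (X.revT x).1 = X.rev ((X.beta ^ k) x.1) := by
  have := X.finD
  have e : (X.beta ^ (k + 1)) x.1 = X.rev ((X.beta ^ k) x.1) := by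
    rw [pow_succ', Perm.mul_apply, X.beta_apply, X.tau_S h1]
  have := ret_eq X.beta X.S (x := x) (k := k) (by rw [e]; exact h1) (by
    intro j hj
    rw [pow_succ', Perm.mul_apply, X.beta_apply, X.S_tau]
    exact h2 j hj)
  rw [← e]
  exact this

theorem Mid.fluxT : Flux X.rotT X.revT := by
  classical
  have := X.finD
  intro z' hz' ⟨g', hg'⟩
  let z : X.D → ZMod 2 := fun d =>
    if h : ∃ x : {d // X.S d}, X.beta.SameCycle x.1 d then z' h.choose else 0
  have hz1 : ∀ (x : {d // X.S d}) (d : X.D), X.beta.SameCycle x.1 d → z d = z' x := by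
    intro x d h
    have hex : ∃ x : {d // X.S d}, X.beta.SameCycle x.1 d := ⟨x, h⟩
    simp only [z, dif_pos hex]
    have h2 : X.revT.SameCycle hex.choose x :=
      (ret_sameCycle X.beta X.S _ _).2 (hex.choose_spec.trans h.symm)
    exact const_of_sameCycle hz' h2
  have hz0 : ∀ d : X.D, (¬ ∃ x : {d // X.S d}, X.beta.SameCycle x.1 d) → z d = 0 := by
    intro d h
    simp only [z, dif_neg h]
  have hzb : ∀ d, z (X.beta d) = z d := by
    intro d
    by_cases h : ∃ x : {d // X.S d}, X.beta.SameCycle x.1 d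
    · obtain ⟨x, hx⟩ := h
      rw [hz1 x d hx, hz1 x _ (Perm.sameCycle_apply_right.2 hx)]
    · rw [hz0 d h, hz0]
      rintro ⟨x, hx⟩
      exact h ⟨x, Perm.sameCycle_apply_right.1 hx⟩
  have hzt : ∀ d, z (X.tau d) = z d := by
    intro d
    by_cases h : ∃ x : {d // X.S d}, X.beta.SameCycle x.1 d
    · obtain ⟨x, hx⟩ := h
      rw [hz1 x d hx, hz1 x _ (X.sc_tau x.2 hx)]
    · rw [hz0 d h, hz0]
      rintro ⟨x, hx⟩
      have := X.sc_tau x.2 hx
      rw [X.tau_tau] at this
      exact h ⟨x, this⟩
  have hzr : ∀ d, z (X.rev d) = z d := by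
    intro d
    rw [X.rev_eq, hzt, hzb]
  have hzS : ∀ x : {d // X.S d}, z x.1 = z' x := fun x => hz1 x x.1 (Perm.SameCycle.refl _ _)
  let g : X.D → ZMod 2 := fun d =>
    if h : X.S d then g' ⟨d, h⟩ else if ∃ p, X.stem p = d then z d else 0
  have hg : ∀ d, g (X.rot d) = g d + z (X.rot d) := by
    intro d
    by_cases h : X.S d
    · have h' : X.S (X.rot d) := (X.S_rot d).2 h
      simp only [g, dif_pos h, dif_pos h']
      have := hg' ⟨d, h⟩
      have e : X.rotT ⟨d, h⟩ = ⟨X.rot d, h'⟩ := rfl
      rw [e] at this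
      rw [this, ← hzS]
    · have h' : ¬ X.S (X.rot d) := fun hh => h ((X.S_rot d).1 hh)
      have hzz : z (X.rot d) = z d := by rw [← X.tau_not_S h, hzt]
      simp only [g, dif_neg h, dif_neg h']
      obtain ⟨p, hp, -⟩ := X.not_S h
      have hst : ∀ q e, X.base e = X.base d → X.stem q = e → q = p := by
        intro q e he hq
        have := X.base_stem q
        rw [hq, he, hp] at this
        exact (Sum.inr.inj this).symm
      by_cases hs : ∃ q, X.stem q = d
      · have hn : ¬ ∃ q, X.stem q = X.rot d := by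
          rintro ⟨q, hq⟩
          obtain ⟨q', hq'⟩ := hs
          have e1 := hst q _ (X.base_rot d) hq
          have e2 := hst q' _ rfl hq'
          rw [e1] at hq
          rw [e2] at hq'
          exact X.rot_ne h (hq.symm.trans hq')
        rw [if_pos hs, if_neg hn, hzz, CharTwo.add_self_eq_zero]
      · have hn : ∃ q, X.stem q = X.rot d := by
          refine ⟨p, X.eq_rot h ((X.base_stem p).trans hp.symm) ?_⟩
          intro he
          exact hs ⟨p, he⟩
        rw [if_neg hs, if_pos hn, zero_add]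
  obtain ⟨χ, h1, h2⟩ := X.flux z hzr ⟨g, hg⟩
  refine ⟨fun x => χ x.1, fun x => ?_, fun x => ?_⟩
  · obtain ⟨k, hk1, -, hk3⟩ := X.exists_path x
    have hzk : ∀ j, z ((X.beta ^ j) x.1) = z' x := by
      intro j
      induction j with
      | zero => exact hzS x
      | succ j ih => rw [pow_succ', Perm.mul_apply, hzb, ih]
    have hχ : ∀ j ≤ k, χ ((X.beta ^ j) x.1) = χ x.1 := by
      intro j
      induction j with
      | zero => intro _; rfl
      | succ j ih =>
        intro hj
        have hn := hk3 j (by omega)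
        rw [pow_succ', Perm.mul_apply, X.beta_apply, X.tau_not_S hn, h2, h1, ih (by omega),
          ← X.tau_not_S hn, hzt, hzr, add_assoc, CharTwo.add_self_eq_zero, add_zero]
    show χ (X.revT x).1 = χ x.1 + z' x
    rw [hk1, h1, hχ k le_rfl, hzk]
  · show χ (X.rot x.1) = χ x.1 + z' (X.rotT x)
    rw [h2, ← hzS]
    rfl

theorem exists_drawing (hf : M_flux) : ∃ T : Drawing V, ∀ u v, T.Joins u v ↔ X.Joins u v := by
  classical
  have := X.finD
  let J := {p : X.P // Nat.card {d // X.base d = Sum.inr p} = 3}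
  let ι : V ⊕ J → V ⊕ X.P := Sum.map id Subtype.val
  have hι : Function.Injective ι := Sum.map_injective.2 ⟨Function.injective_id, Subtype.val_injective⟩
  have hb : ∀ d : {d // X.S d}, ∃ b, ι b = X.base d.1 := by
    intro d
    cases h : X.base d.1 with
    | inl v => exact ⟨Sum.inl v, rfl⟩
    | inr p => exact ⟨Sum.inr ⟨p, d.2 p h⟩, rfl⟩
  choose base hbase using hb
  have hbl : ∀ d v, base d = Sum.inl v ↔ X.base d.1 = Sum.inl v := by
    intro d v
    rw [← hbase d]
    exact ⟨fun h => by rw [h]; rfl, fun h => hι (by rw [h]; rfl)⟩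
  have hbr : ∀ d (p : J), base d = Sum.inr p ↔ X.base d.1 = Sum.inr p.1 := by
    intro d p
    rw [← hbase d]
    exact ⟨fun h => by rw [h]; rfl, fun h => hι (by rw [h]; rfl)⟩
  have hSl : ∀ (d : X.D) v, X.base d = Sum.inl v → X.S d := by
    intro d v h p hp
    rw [h] at hp
    exact absurd hp (by simp)
  have hSr : ∀ (d : X.D) (p : J), X.base d = Sum.inr p.1 → X.S d := by
    intro d p h q hq
    rw [h] at hq
    rw [← Sum.inr.inj hq]
    exact p.2
  let T : Drawing V :=
    { Dart := {d // X.S d}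
      finDart := inferInstance
      J := J
      finJ := by
        refine Finite.of_injective (fun p : J => X.stem p.1) ?_
        intro p q h
        have h1 := X.base_stem p.1
        have h2 := X.base_stem q.1
        have h' : X.stem p.1 = X.stem q.1 := h
        rw [h', h2] at h1
        exact Subtype.ext (Sum.inr.inj h1).symm
      base := base
      rev := X.revT
      rot := X.rotT
      rev_rev := X.revT_revT
      rev_ne := X.revT_ne
      sameCycle := by
        intro d e
        rw [← hι.eq_iff, hbase, hbase, ← X.sameCycle]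
        exact Perm.sameCycle_subtypePerm
      plane := (hf _ X.rotT X.revT X.revT_revT X.revT_ne).2 X.fluxT
      stem := fun p => ⟨X.stem p.1, hSr _ p (X.base_stem p.1)⟩
      base_stem := fun p => (hbr _ _).2 (X.base_stem p.1)
      degree := by
        intro p
        have e : {d : {d // X.S d} // base d = Sum.inr p} ≃ {d // X.base d = Sum.inr p.1} :=
          { toFun := fun d => ⟨d.1.1, (hbr _ _).1 d.2⟩
            invFun := fun d => ⟨⟨d.1, hSr _ p d.2⟩, (hbr _ _).2 d.2⟩
            left_inv := fun d => rfl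
            right_inv := fun d => rfl }
        rw [Nat.card_congr e]
        exact p.2 }
  -- smooth passages
  have hsm : ∀ (x : {d // X.S d}) (k : ℕ), (X.revT x).1 = X.rev ((X.beta ^ k) x.1) →
      ∀ y : {d // X.S d}, T.Smooth x y ↔ X.Smooth ((X.beta ^ k) x.1) y.1 := by
    intro x k hk y
    constructor
    · rintro ⟨p, h1, h2, h3, h4⟩
      refine ⟨p.1, ?_, (hbr _ _).1 h2, ?_, ?_⟩
      · rw [← hk]
        exact (hbr _ _).1 h1
      · rw [← hk]
        exact fun h => h3 (Subtype.ext h)
      · rcases h4 with h4 | h4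
        · refine Or.inl ?_
          rw [← hk]
          exact congrArg Subtype.val h4
        · exact Or.inr (congrArg Subtype.val h4)
    · rintro ⟨p, h1, h2, h3, h4⟩
      rw [← hk] at h1 h3 h4
      have hp : Nat.card {d // X.base d = Sum.inr p} = 3 := y.2 p h2
      refine ⟨⟨p, hp⟩, (hbr _ _).2 h1, (hbr _ _).2 h2, fun h => h3 (congrArg Subtype.val h), ?_⟩
      rcases h4 with h4 | h4
      · exact Or.inl (Subtype.ext h4)
      · exact Or.inr (Subtype.ext h4)
  -- passing a point of degree two
  have hpass : ∀ d : X.D, ¬ X.S (X.rev d) → ∀ e, X.Smooth d e ↔ e = X.beta d := by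
    intro d hd e
    have hbd : X.beta d = X.rot (X.rev d) := by rw [X.beta_apply, X.tau_not_S hd]
    constructor
    · rintro ⟨p, h1, h2, h3, -⟩
      rw [hbd]
      exact X.eq_rot hd (h2.trans h1.symm) h3.symm
    · rintro rfl
      obtain ⟨p, hp, -⟩ := X.not_S hd
      refine ⟨p, hp, ?_, ?_, ?_⟩
      · rw [hbd, X.base_rot, hp]
      · rw [hbd]
        exact (X.rot_ne hd).symm
      · by_cases hs : X.rev d = X.stem p
        · exact Or.inl hs
        · refine Or.inr ?_
          rw [hbd]
          exact (X.eq_rot hd ((X.base_stem p).trans hp.symm) (fun h => hs h.symm)).symm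
  have hrun : ∀ (x : {d // X.S d}) (k : ℕ), (∀ j < k, ¬ X.S (X.rev ((X.beta ^ j) x.1))) →
      Relation.ReflTransGen X.Smooth x.1 ((X.beta ^ k) x.1) := by
    intro x k
    induction k with
    | zero => intro _; exact Relation.ReflTransGen.refl
    | succ k ih =>
      intro h
      refine (ih fun j hj => h j (by omega)).tail ?_
      rw [pow_succ', Perm.mul_apply]
      exact (hpass _ (h k (by omega)) _).2 rfl
  refine ⟨T, fun u v => ⟨?_, ?_⟩⟩
  · rintro ⟨d, e, h1, h2, h3⟩
    have hpath : ∀ a b : {d // X.S d}, Relation.ReflTransGen T.Smooth a b →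
        Relation.ReflTransGen X.Smooth a.1 b.1 := by
      intro a b hab
      induction hab with
      | refl => exact Relation.ReflTransGen.refl
      | @tail b c _ hbc ih =>
        obtain ⟨k, hk1, -, hk3⟩ := X.exists_path b
        exact (ih.trans (hrun b k hk3)).tail ((hsm b k hk1 c).1 hbc)
    obtain ⟨k, hk1, -, hk3⟩ := X.exists_path e
    refine ⟨d.1, (X.beta ^ k) e.1, (hbl _ _).1 h1, (hpath d e h2).trans (hrun e k hk3), ?_⟩
    rw [← hk1]
    exact (hbl _ _).1 h3
  · rintro ⟨d, e, h1, h2, h3⟩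
    have hd : X.S d := hSl d u h1
    have key : ∀ e, Relation.ReflTransGen X.Smooth d e → ∃ (s : {d // X.S d}) (k : ℕ),
        Relation.ReflTransGen T.Smooth ⟨d, hd⟩ s ∧ e = (X.beta ^ k) s.1 ∧
        ∀ j < k, ¬ X.S (X.rev ((X.beta ^ j) s.1)) := by
      intro e he
      induction he with
      | refl => exact ⟨⟨d, hd⟩, 0, Relation.ReflTransGen.refl, rfl, by simp⟩
      | @tail b c _ hbc ih =>
        obtain ⟨s, k, hs1, hs2, hs3⟩ := ih
        by_cases hb : X.S (X.rev b)
        · have hr : (X.revT s).1 = X.rev ((X.beta ^ k) s.1) :=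
            X.revT_eq s (by rw [← hs2]; exact hb) hs3
          have hc : X.S c := by
            obtain ⟨p, q1, q2, -, -⟩ := hbc
            exact (X.S_congr (q2.trans q1.symm)).2 hb
          refine ⟨⟨c, hc⟩, 0, hs1.tail ((hsm s k hr ⟨c, hc⟩).2 ?_), rfl, by simp⟩
          rw [← hs2]
          exact hbc
        · have hc : c = X.beta b := (hpass b hb c).1 hbc
          refine ⟨s, k + 1, hs1, ?_, ?_⟩
          · rw [hc, hs2, pow_succ', Perm.mul_apply]
          · intro j hj
            rcases Nat.lt_succ_iff_lt_or_eq.1 hj with hj | hj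
            · exact hs3 j hj
            · rw [hj, ← hs2]
              exact hb
    obtain ⟨s, k, hs1, hs2, hs3⟩ := key e h2
    have hb : X.S (X.rev e) := hSl _ v h3
    have hr : (X.revT s).1 = X.rev ((X.beta ^ k) s.1) :=
      X.revT_eq s (by rw [← hs2]; exact hb) hs3
    refine ⟨⟨d, hd⟩, s, (hbl _ _).2 h1, hs1, ?_⟩
    refine (hbl _ _).2 ?_
    show X.base (X.revT s).1 = _
    rw [hr, ← hs2]
    exact h3

end Two

/-- MODULE SC8. -/
theorem sc_pre (hf : M_flux) : M_pre := by
  intro V X
  obtain ⟨Y, hY⟩ := exists_mid X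
  obtain ⟨T, hT⟩ := exists_drawing Y hf
  exact ⟨T, fun u v => (hT u v).trans (hY u v)⟩

end Pool.Agent.Helper88.SC
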