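import Pool.Agent.Helper99.SC.Logic

/-!
# The word of the graph of a program
-/

set_option autoImplicit false

namespace Pool.Agent.Helper88.SC

open Pool.Agent.Helper99.SC

theorem range_mul (a b : ℕ) :
    ((List.range a).flatMap fun i => (List.range b).map fun j => i * b + j) = List.range (a * b) := by
  induction a with
  | zero => simp
  | succ a ih =>
    rw [List.range_succ, List.flatMap_append, ih, Nat.succ_mul, List.range_add]
    simp

theorem range_mul_off (c a b : ℕ) :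
    ((List.range a).flatMap fun i => (List.range b).map fun j => (c * a + i) * b + j) =
      (List.range (a * b)).map fun r => c * (a * b) + r := by
  rw [← range_mul, List.map_flatMap]
  congr 1
  funext i
  rw [List.map_map]
  congr 1
  funext j
  simp only [Function.comp]
  ring

theorem verts_map (K L : ℕ) : (verts K L).map (vnum K) = List.range ((L + 2) * 4 * K * 64) := by
  unfold verts
  simp only [List.map_flatMap, List.map_map, Function.comp_def, vnum]
  have h1 : ∀ i ρ : ℕ, ((List.range K).flatMap fun κ => (List.range 64).map fun m =>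
      ((4 * i + ρ) * K + κ) * 64 + m) =
      (List.range (K * 64)).map fun r => (i * 4 + ρ) * (K * 64) + r := by
    intro i ρ
    rw [range_mul_off, mul_comm 4 i]
  simp only [h1]
  have h2 : ∀ i : ℕ, ((List.range 4).flatMap fun ρ => (List.range (K * 64)).map fun r =>
      (i * 4 + ρ) * (K * 64) + r) =
      (List.range (4 * (K * 64))).map fun r => i * (4 * (K * 64)) + r := by
    intro i
    rw [range_mul_off]
  simp only [h2]
  rw [range_mul]
  congr 1
  ring

theorem mem_verts {K L : ℕ} {v : ℕ × ℕ × ℕ × ℕ} (h : v ∈ verts K L) :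
    v.1 < L + 2 ∧ v.2.1 < 4 ∧ v.2.2.1 < K ∧ v.2.2.2 < 64 := by
  unfold verts at h
  simp only [List.mem_flatMap, List.mem_range, List.mem_map] at h
  obtain ⟨i, hi, ρ, hρ, κ, hκ, m, hm, rfl⟩ := h
  exact ⟨hi, hρ, hκ, hm⟩

theorem ok_vpl {K L : ℕ} {v : ℕ × ℕ × ℕ × ℕ}
    (h : v.1 < L + 2 ∧ v.2.1 < 4 ∧ v.2.2.1 < K ∧ v.2.2.2 < 64) {l : ℕ} (hl : l < 16) :
    Pl.Ok K L (vpl K v l) := by
  obtain ⟨h1, h2, h3, h4⟩ := h
  refine ⟨h1, h2, ?_, hl⟩
  simp only [vpl]
  split_ifs <;> omega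

theorem num_vpl {K L : ℕ} {v : ℕ × ℕ × ℕ × ℕ}
    (h : v.1 < L + 2 ∧ v.2.1 < 4 ∧ v.2.2.1 < K ∧ v.2.2.2 < 64) (l : ℕ) :
    num K (vpl K v l) = ((4 * v.1 + v.2.1) * K + v.2.2.1) * 16 + l := by
  obtain ⟨h1, h2, h3, h4⟩ := h
  by_cases hρ : v.2.1 = 1 ∨ v.2.1 = 3
  · have e : K - 1 - (K - 1 - v.2.2.1) = v.2.2.1 := by omega
    simp only [num, vpl, if_pos hρ, e]
  · simp only [num, vpl, if_neg hρ]

theorem vadj_iff (hn : M_num) (hb : M_bip) {K : ℕ} {ops : List Op} (hK : 0 < K)
    (hv : ∀ o ∈ ops, o.Valid K) {v w : ℕ × ℕ × ℕ × ℕ}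
    (h : v.1 < ops.length + 2 ∧ v.2.1 < 4 ∧ v.2.2.1 < K ∧ v.2.2.2 < 64)
    (h' : w.1 < ops.length + 2 ∧ w.2.1 < 4 ∧ w.2.2.1 < K ∧ w.2.2.2 < 64)
    (n : ℕ) (hnn : n = (ops.length + 2) * 4 * K * 64) (hvn : vnum K v < n) (hwn : vnum K w < n) :
    vadj K ops v w = true ↔ vnum K v ≠ vnum K w ∧
      (((vnum K v + 1) % n = vnum K w ∨
          ∃ a b, slotRel ops K a b ∧ vnum K v = 4 * a + 2 ∧ vnum K w = 4 * b + 2) ∨
        ((vnum K w + 1) % n = vnum K v ∨
          ∃ a b, slotRel ops K a b ∧ vnum K w = 4 * a + 2 ∧ vnum K v = 4 * b + 2)) := by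
  obtain ⟨-, hinj, -, -, -⟩ := hn K ops.length hK
  have hn2 : 2 ≤ n := by
    rw [hnn]
    have : 1 ≤ (ops.length + 2) * 4 * K := Nat.mul_pos (by omega) hK
    omega
  -- slots
  have hslot : ∀ v w : ℕ × ℕ × ℕ × ℕ,
      (v.1 < ops.length + 2 ∧ v.2.1 < 4 ∧ v.2.2.1 < K ∧ v.2.2.2 < 64) →
      (w.1 < ops.length + 2 ∧ w.2.1 < 4 ∧ w.2.2.1 < K ∧ w.2.2.2 < 64) →
      ((∃ a b, slotRel ops K a b ∧ vnum K v = 4 * a + 2 ∧ vnum K w = 4 * b + 2) ↔
        ∃ l < 16, ∃ l' < 16, v.2.2.2 = 4 * l + 2 ∧ w.2.2.2 = 4 * l' + 2 ∧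
          HH ops (vpl K v l) (vpl K w l')) := by
    intro v w h h'
    constructor
    · rintro ⟨a, b, ⟨s, t, hs, ht, hst, rfl, rfl⟩, h1, h2⟩
      have key : ∀ (v : ℕ × ℕ × ℕ × ℕ) (s : Pl),
          (v.1 < ops.length + 2 ∧ v.2.1 < 4 ∧ v.2.2.1 < K ∧ v.2.2.2 < 64) →
          Pl.Ok K ops.length s → vnum K v = 4 * num K s + 2 →
          v.2.2.2 = 4 * s.2.2.2 + 2 ∧ vpl K v s.2.2.2 = s := by
        intro v s h hs h1
        have hs4 := hs.2.2.2
        obtain ⟨q1, q2, q3, q4⟩ := id h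
        have e1 : v.2.2.2 = 4 * s.2.2.2 + 2 ∧ (4 * v.1 + v.2.1) * K + v.2.2.1 =
            (4 * s.1 + s.2.1) * K + (if s.2.1 = 1 ∨ s.2.1 = 3 then K - 1 - s.2.2.1
              else s.2.2.1) := by
          unfold vnum num at h1
          generalize (4 * v.1 + v.2.1) * K + v.2.2.1 = x at h1
          generalize ((4 * s.1 + s.2.1) * K + (if s.2.1 = 1 ∨ s.2.1 = 3 then K - 1 - s.2.2.1
              else s.2.2.1)) = y at h1
          omega
        refine ⟨e1.1, hinj _ _ (ok_vpl h hs4) hs ?_⟩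
        rw [num_vpl h, e1.2]
        rfl
      obtain ⟨e1, e2⟩ := key v s h hs h1
      obtain ⟨e3, e4⟩ := key w t h' ht h2
      refine ⟨s.2.2.2, hs.2.2.2, t.2.2.2, ht.2.2.2, e1, e3, ?_⟩
      rw [e2, e4]
      exact hst
    · rintro ⟨l, hl, l', hl', h1, h2, h3⟩
      refine ⟨_, _, ⟨vpl K v l, vpl K w l', ok_vpl h hl, ok_vpl h' hl', h3, rfl, rfl⟩, ?_, ?_⟩
      · rw [num_vpl h]
        unfold vnum
        omega
      · rw [num_vpl h']
        unfold vnum
        omega
  have hne : ∀ a b, slotRel ops K a b → a ≠ b := by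
    rintro a b ⟨s, t, hs, ht, hst, rfl, rfl⟩ he
    have : s = t := hinj s t hs ht he
    subst this
    exact hb K ops hv s s s hs hs hs hst hst
  have hmod : ∀ x y : ℕ, x < n → y < n → ((x + 1) % n = y ↔ x + 1 = y ∨ (y = 0 ∧ x + 1 = n)) := by
    intro x y hx hy
    rcases Nat.lt_or_ge (x + 1) n with hlt | hge
    · rw [Nat.mod_eq_of_lt hlt]
      omega
    · have : x + 1 = n := by omega
      rw [this, Nat.mod_self]
      omega
  rw [hmod _ _ hvn hwn, hmod _ _ hwn hvn]
  have hunf : vadj K ops v w = true ↔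
      (((vnum K v + 1 = vnum K w ∨ vnum K w + 1 = vnum K v) ∨
        (vnum K v = 0 ∧ vnum K w + 1 = (ops.length + 2) * 4 * K * 64)) ∨
        (vnum K w = 0 ∧ vnum K v + 1 = (ops.length + 2) * 4 * K * 64)) ∨
      ∃ l < 16, ∃ l' < 16, (v.2.2.2 = 4 * l + 2 ∧ w.2.2.2 = 4 * l' + 2) ∧
        (HH ops (vpl K v l) (vpl K w l') ∨ HH ops (vpl K w l') (vpl K v l)) := by
    simp only [vadj, Bool.or_eq_true, Bool.and_eq_true, decide_eq_true_eq, List.any_eq_true,
      List.mem_range]
  rw [hunf, ← hnn]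
  constructor
  · rintro ((((h1 | h1) | h1) | h1) | ⟨l, hl, l', hl', ⟨h1, h2⟩, h3 | h3⟩)
    · exact ⟨by omega, Or.inl (Or.inl (Or.inl h1))⟩
    · exact ⟨by omega, Or.inr (Or.inl (Or.inl h1))⟩
    · exact ⟨by omega, Or.inr (Or.inl (Or.inr h1))⟩
    · exact ⟨by omega, Or.inl (Or.inl (Or.inr h1))⟩
    · have hex := (hslot v w h h').2 ⟨l, hl, l', hl', h1, h2, h3⟩
      refine ⟨?_, Or.inl (Or.inr hex)⟩
      obtain ⟨a, b, hab, e1, e2⟩ := hex
      have := hne a b hab
      omega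
    · have hex := (hslot w v h' h).2 ⟨l', hl', l, hl, h2, h1, h3⟩
      refine ⟨?_, Or.inr (Or.inr hex)⟩
      obtain ⟨a, b, hab, e1, e2⟩ := hex
      have := hne a b hab
      omega
  · rintro ⟨-, ((h1 | h1) | h1) | ((h1 | h1) | h1)⟩
    · exact Or.inl (Or.inl (Or.inl (Or.inl h1)))
    · exact Or.inl (Or.inr h1)
    · obtain ⟨l, hl, l', hl', h1, h2, h3⟩ := (hslot v w h h').1 h1
      exact Or.inr ⟨l, hl, l', hl', ⟨h1, h2⟩, Or.inl h3⟩
    · exact Or.inl (Or.inl (Or.inl (Or.inr h1)))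
    · exact Or.inl (Or.inl (Or.inr h1))
    · obtain ⟨l, hl, l', hl', h1, h2, h3⟩ := (hslot w v h' h).1 h1
      exact Or.inr ⟨l', hl', l, hl, ⟨h2, h1⟩, Or.inr h3⟩

theorem flatMap_congr' {α β : Type} {l : List α} {f g : α → List β} (h : ∀ a ∈ l, f a = g a) :
    l.flatMap f = l.flatMap g := by
  induction l with
  | nil => rfl
  | cons a l ih =>
    rw [List.flatMap_cons, List.flatMap_cons, h a (by simp), ih fun b hb => h b (by simp [hb])]

/-- MODULE SL4. -/
theorem sl_word (hn : M_num) (hb : M_bip) : M_word := by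
  classical
  intro K ops hK hv
  obtain ⟨n, hnn⟩ : ∃ n, n = (ops.length + 2) * 4 * K * 64 := ⟨_, rfl⟩
  have hN : 4 * ((ops.length + 2) * 4 * K * 16) = n := by rw [hnn]; ring
  -- the relation on numbers
  obtain ⟨A, hAd⟩ : ∃ A : ℕ → ℕ → Prop, ∀ a b, A a b ↔ (a ≠ b ∧
    (((a + 1) % n = b ∨ ∃ x y, slotRel ops K x y ∧ a = 4 * x + 2 ∧ b = 4 * y + 2) ∨
     ((b + 1) % n = a ∨ ∃ x y, slotRel ops K x y ∧ b = 4 * x + 2 ∧ a = 4 * y + 2))) :=
    ⟨_, fun _ _ => Iff.rfl⟩
  have hG : ∀ i j : Fin (4 * ((ops.length + 2) * 4 * K * 16)),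
      (slotGraph ((ops.length + 2) * 4 * K * 16) (slotRel ops K)).Adj i j ↔ A i.val j.val := by
    intro i j
    unfold slotGraph
    rw [SimpleGraph.fromRel_adj, hAd]
    simp only [← hN, ne_eq, Fin.ext_iff]
  have hval : ∀ v ∈ verts K ops.length, vnum K v < n := by
    intro v hvm
    have : vnum K v ∈ (verts K ops.length).map (vnum K) := List.mem_map_of_mem hvm
    rw [verts_map, ← hnn] at this
    exact List.mem_range.1 this
  have hA : ∀ v ∈ verts K ops.length, ∀ w ∈ verts K ops.length,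
      vadj K ops v w = decide (A (vnum K v) (vnum K w)) := by
    intro v hvm w hwm
    rw [Bool.eq_iff_iff, decide_eq_true_iff, hAd]
    exact vadj_iff hn hb hK hv (mem_verts hvm) (mem_verts hwm) n hnn (hval v hvm) (hval w hwm)
  have hL : ((verts K ops.length).flatMap fun v => (verts K ops.length).map fun w =>
      vadj K ops v w) = (List.range n).flatMap fun a => (List.range n).map fun b =>
        decide (A a b) := by
    rw [hnn, ← verts_map, List.flatMap_map]
    refine flatMap_congr' fun v hvm => ?_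
    rw [List.map_map]
    exact List.map_congr_left fun w hwm => hA v hvm w hwm
  have hR : ∀ (m : ℕ) (B : ℕ → ℕ → Prop), ((List.finRange m).flatMap fun i =>
      (List.finRange m).map fun j => decide (B i.val j.val)) =
      (List.range m).flatMap fun a => (List.range m).map fun b => decide (B a b) := by
    intro m B
    have e : List.range m = (List.finRange m).map Fin.val := by simp
    rw [e, List.flatMap_map]
    refine flatMap_congr' fun i _ => ?_
    rw [List.map_map]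
    rfl
  have hW : ((List.finRange (4 * ((ops.length + 2) * 4 * K * 16))).flatMap fun i =>
      (List.finRange (4 * ((ops.length + 2) * 4 * K * 16))).map fun j =>
        decide ((slotGraph ((ops.length + 2) * 4 * K * 16) (slotRel ops K)).Adj i j)) =
      (List.range n).flatMap fun a => (List.range n).map fun b => decide (A a b) := by
    have e : ((List.finRange (4 * ((ops.length + 2) * 4 * K * 16))).flatMap fun i =>
      (List.finRange (4 * ((ops.length + 2) * 4 * K * 16))).map fun j =>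
        decide ((slotGraph ((ops.length + 2) * 4 * K * 16) (slotRel ops K)).Adj i j)) =
      ((List.finRange (4 * ((ops.length + 2) * 4 * K * 16))).flatMap fun i =>
      (List.finRange (4 * ((ops.length + 2) * 4 * K * 16))).map fun j =>
        decide (A i.val j.val)) :=
      flatMap_congr' fun i _ => List.map_congr_left fun j _ => decide_eq_decide.2 (hG i j)
    rw [e, hR, hN]
  have e0 : List.replicate ((ops.length + 2) * 4 * K * 64) true =
      List.replicate (4 * ((ops.length + 2) * 4 * K * 16)) true := by rw [hN, hnn]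
  unfold gword word
  rw [e0, hL]
  congr 2
  rw [← hW]

end Pool.Agent.Helper88.SC
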